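import Pool.Agent.Q216.PD.Stm2

/-!
# Project PD: an isometry with a fixed point which moves a point almost straight has its fixed
point far away
-/

set_option autoImplicit false

universe u v

open Metric Set Filter Topology
open Pool.Agent.TH60.FP Pool.Agent.Y34.HB Pool.Agent.Y34.EL

namespace Pool.Agent.Q216.PD

theorem t_rot : S_ROT.{u, v} := by
  intro X _ G _ _ _ hX w x o hx hlt
  set A := dist o (w • o) with hA
  set D := dist o (w • w • o) with hD
  set r := dist o x with hr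
  have hA0 : 0 ≤ A := dist_nonneg
  have hr0 : 0 ≤ r := dist_nonneg
  obtain ⟨m, hm⟩ := hX o (w • w • o)
  have e1 : dist x (w • w • o) = r := by
    conv_lhs => rw [← hx, dist_smul, ← hx, dist_smul]
    rw [dist_comm]
  have e2 : dist (w • o) x = r := by
    conv_lhs => rw [← hx, dist_smul]
  have e3 : dist (w • o) (w • w • o) = A := by rw [dist_smul]
  have h1 := hm x
  rw [e1, dist_comm x o, ← hr] at h1
  have h2 := hm (w • o)
  rw [e3, dist_comm (w • o) o, ← hA] at h2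
  have h3 : dist (w • o) x ≤ dist (w • o) m + dist x m := by
    rw [dist_comm x m]
    exact dist_triangle _ _ _
  rw [e2] at h3
  set a := dist (w • o) m with ha
  set b := dist x m with hb
  have ha0 : 0 ≤ a := dist_nonneg
  have hb0 : 0 ≤ b := dist_nonneg
  have hB : a ^ 2 ≤ A ^ 2 - D ^ 2 / 4 := by linarith
  have hb2 : b ^ 2 ≤ r ^ 2 - D ^ 2 / 4 := by linarith
  set B := √(A ^ 2 - D ^ 2 / 4) with hBdef
  have hBn : 0 ≤ A ^ 2 - D ^ 2 / 4 := (sq_nonneg a).trans hB
  have hB2 : B ^ 2 = A ^ 2 - D ^ 2 / 4 := Real.sq_sqrt hBn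
  have hB0 : 0 ≤ B := Real.sqrt_nonneg _
  have haB : a ≤ B := Real.le_sqrt_of_sq_le hB
  have hBr : B < r := by
    refine lt_of_pow_lt_pow_left₀ 2 hr0 ?_
    rw [hB2]
    linarith
  have h4 : r - B ≤ b := by linarith
  have h5 : (r - B) ^ 2 ≤ b ^ 2 := pow_le_pow_left₀ (by linarith) h4 2
  have h6 : A ^ 2 ≤ 2 * r * B := by nlinarith
  have h7 : (A ^ 2) ^ 2 ≤ (2 * r * B) ^ 2 := pow_le_pow_left₀ (sq_nonneg A) h6 2
  have h8 : (2 * r * B) ^ 2 = r ^ 2 * (4 * A ^ 2 - D ^ 2) := by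
    rw [mul_pow, mul_pow, hB2]
    ring
  have h9 : A ^ 4 = (A ^ 2) ^ 2 := by ring
  rw [h9]
  linarith

end Pool.Agent.Q216.PD
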