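import Pool.Agent.Q216.PD.Fix
import Pool.Agent.Q216.PD.Rot

/-!
# Project PD: the ends of an axis in one factor and the elements with an axis in the other factor
-/

set_option autoImplicit false

universe u v

open Metric Set Filter Topology
open Pool.Agent.TH60.FP Pool.Agent.Y34.HB Pool.Agent.Y34.EL Pool.Agent.Y155.HB Pool.Agent.Y219.EL

namespace Pool.Agent.Q216.PD

/-- powers of an element translate its axis -/
theorem axis_pow {X : Type u} [MetricSpace X] {G : Type v} [Group G] [MulAction G X] {g : G}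
    {τ : ℝ} {c : ℝ → X} (hc : Axis g τ c) (n : ℕ) (s : ℝ) : g ^ n • c s = c (s + n * τ) := by
  induction n generalizing s with
  | zero => rw [pow_zero, one_smul]; simp
  | succ n ih =>
    rw [pow_succ, mul_smul, hc.2, ih]
    congr 1
    push_cast
    ring

/-- no `ℤ²`: elements without fixed points in the second factor have a nonempty bounded set of
fixed points in the first factor -/
theorem fix_all (hst : S_STEW.{u}) (hWIDE : S_WIDE.{u, v}) (hreg : S_REG.{u, v})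
    {X₁ X₂ : Type u} [MetricSpace X₁]
    [MetricSpace X₂] {G : Type v} [Group G] [MulAction G X₁] [MulAction G X₂]
    (hG : PGeo X₁ X₂ G) (h1 : Nonempty X₁) (h2 : Nonempty X₂) (hz : ¬ HasZ2 G) (g : G)
    (hn : ∀ x : X₂, g • x ≠ x) : (∃ x : X₁, g • x = x) ∧
    ∃ R : ℝ, ∀ x y : X₁, g • x = x → g • y = y → dist x y ≤ R := by
  constructor
  · by_contra hcon
    push Not at hcon
    exact hz (axes_both hreg hG h1 h2 g hcon hn)
  · by_contra hcon
    push Not at hcon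
    refine hz (fix_bdd hst hWIDE hG h1 h2 g hn fun R => ?_)
    obtain ⟨x, y, hx, hy, hR⟩ := hcon R
    exact ⟨x, y, hx, hy, hR.le⟩

/-- the numerical contradiction -/
theorem num_part {A D r l η t K₀ : ℝ} (hη0 : 0 < η) (hη1 : η ≤ 1) (hη2 : η ≤ l ^ 2 / 4)
    (hl : 0 < l) (hK0 : 0 ≤ K₀) (hA0 : 0 < A) (hr0 : 0 ≤ r) (hAr : A ≤ 2 * r)
    (hA1 : A ≤ t + K₀) (htK : 64 * K₀ ≤ t * η) (hD1 : (2 - η / 16) * t - K₀ ≤ D)
    (hlr : l * r ≤ 2 * A)
    (hrot : 4 * A ^ 2 - D ^ 2 < 4 * r ^ 2 → A ^ 4 ≤ r ^ 2 * (4 * A ^ 2 - D ^ 2)) : False := by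
  have hDA : (2 - η / 8) * A ≤ D := by
    have e2 : (2 - η / 8) * (t + K₀) ≤ (2 - η / 16) * t - K₀ := by
      have e4 : 0 ≤ η * K₀ := mul_nonneg hη0.le hK0
      have e5 : (2 - η / 8) * (t + K₀) = (2 - η / 16) * t - t * η / 16 + 2 * K₀ - η * K₀ / 8 := by
        ring
      rw [e5]
      linarith
    have e3 : (2 - η / 8) * A ≤ (2 - η / 8) * (t + K₀) :=
      mul_le_mul_of_nonneg_left hA1 (by linarith)
    linarith
  have hD2 : (4 - η / 2) * A ^ 2 ≤ D ^ 2 := by
    have e1 : ((2 - η / 8) * A) ^ 2 ≤ D ^ 2 :=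
      pow_le_pow_left₀ (mul_nonneg (by linarith) hA0.le) hDA 2
    have e2 : (4 - η / 2) * A ^ 2 ≤ ((2 - η / 8) * A) ^ 2 := by
      rw [mul_pow]
      refine mul_le_mul_of_nonneg_right ?_ (sq_nonneg A)
      have : (2 - η / 8) ^ 2 = 4 - η / 2 + (η / 8) ^ 2 := by ring
      rw [this]
      have := sq_nonneg (η / 8)
      linarith
    exact e2.trans e1
  have hAr2 : A ^ 2 ≤ 4 * r ^ 2 := by
    have := pow_le_pow_left₀ hA0.le hAr 2
    rw [mul_pow] at this
    linarith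
  have hA2pos : 0 < A ^ 2 := by positivity
  have hηA : η / 2 * A ^ 2 ≤ 1 / 2 * A ^ 2 :=
    mul_le_mul_of_nonneg_right (by linarith) hA2pos.le
  have hlt2 : 4 * A ^ 2 - D ^ 2 < 4 * r ^ 2 := by linarith
  have h10 : A ^ 4 ≤ r ^ 2 * (η / 2 * A ^ 2) := by
    refine (hrot hlt2).trans (mul_le_mul_of_nonneg_left ?_ (sq_nonneg r))
    linarith
  have h11 : A ^ 2 ≤ r ^ 2 * (η / 2) := by
    have : A ^ 2 * A ^ 2 ≤ (r ^ 2 * (η / 2)) * A ^ 2 := by
      calc A ^ 2 * A ^ 2 = A ^ 4 := by ring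
        _ ≤ _ := h10
        _ = _ := by ring
    exact le_of_mul_le_mul_right this hA2pos
  have h13 : (l * r) ^ 2 ≤ (2 * A) ^ 2 := pow_le_pow_left₀ (mul_nonneg hl.le hr0) hlr 2
  have h14 : l ^ 2 * A ^ 2 ≤ l ^ 2 * (r ^ 2 * (η / 2)) :=
    mul_le_mul_of_nonneg_left h11 (sq_nonneg l)
  have h15 : l ^ 2 * (r ^ 2 * (η / 2)) = (l * r) ^ 2 * (η / 2) := by ring
  have h16 : (l * r) ^ 2 * (η / 2) ≤ (2 * A) ^ 2 * (η / 2) :=
    mul_le_mul_of_nonneg_right h13 (by linarith)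
  have h17 : (2 * A) ^ 2 * (η / 2) = 2 * η * A ^ 2 := by ring
  have h18 : l ^ 2 * A ^ 2 ≤ 2 * η * A ^ 2 := by linarith
  have h19 := le_of_mul_le_mul_right h18 hA2pos
  have h20 : 0 < l ^ 2 := by positivity
  linarith

theorem ang (hst : S_STEW.{u}) (hcmp : S_CMP.{u}) (hWIDE : S_WIDE.{u, v}) (hreg : S_REG.{u, v})
    (hlim : S_LIM.{u, v}) (hpow : S_POW.{u, v}) (huni : S_UNI.{u, v})
    {X₁ X₂ : Type u} [MetricSpace X₁]
    [MetricSpace X₂] {G : Type v} [Group G] [MulAction G X₁] [MulAction G X₂]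
    (hG : PGeo X₁ X₂ G) (h1 : Nonempty X₁) (h2 : Nonempty X₂) (hz : ¬ HasZ2 G) (g : G)
    (τ : ℝ) (c : ℝ → X₁) (hτ : 0 < τ) (hc : Axis g τ c) (k : G) (hk : ∀ x : X₂, k • x ≠ x) :
    ∃ κ K : ℝ, κ < 2 ∧ ∀ t, 0 ≤ t → dist (k • c t) (c (-t)) ≤ κ * t + K := by
  have := hG.proper₁
  have := hG.isom₁
  have := hG.proper₂
  have := hG.isom₂
  have hfix := fun g : G => fix_all hst hWIDE hreg hG h1 h2 hz g
  -- `g` has a fixed point in the second factor
  obtain ⟨p, hp⟩ : ∃ p : X₂, g • p = p := by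
    by_contra hcon
    push Not at hcon
    exact hz (axes_both hreg hG h1 h2 g (noFix_of_axis hτ hc) hcon)
  obtain ⟨⟨q, hq⟩, -⟩ := hfix k hk
  obtain ⟨τ₂, c₂, ht₂, hc₂, hmin⟩ := t_min X₁ X₂ G hG h1 h2 k hk
  obtain ⟨n, hni, hlimn⟩ := hpow X₂ G g p hp
  have hw : ∀ x : X₂, Tendsto (fun i => (g ^ n i * k) • x) atTop (𝓝 (k • x)) := by
    intro x
    simpa [mul_smul] using hlimn (k • x)
  -- no fixed points in the second factor
  have hno : ∀ᶠ i in atTop, ∀ x : X₂, (g ^ n i * k) • x ≠ x := by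
    by_contra hcon
    rw [Filter.not_eventually] at hcon
    obtain ⟨φ, hφ, hφ2⟩ := extraction_of_frequently_atTop hcon
    refine hz (hlim X₁ X₂ G hG k q τ₂ c₂ hq ht₂ hc₂ hmin (fun i => g ^ n (φ i) * k)
      (fun x => (hw x).comp hφ.tendsto_atTop) (fun i => ?_))
    have := hφ2 i
    push Not at this
    exact this
  obtain ⟨y₂⟩ := h2
  have hL : ∀ᶠ i in atTop, dist y₂ ((g ^ n i * k) • y₂) ≤ dist y₂ (k • y₂) + 1 := by
    have h3 : Tendsto (fun i => dist y₂ ((g ^ n i * k) • y₂)) atTop (𝓝 (dist y₂ (k • y₂))) :=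
      tendsto_const_nhds.dist (hw y₂)
    exact (h3.eventually_lt_const (by linarith)).mono fun i hi => hi.le
  obtain ⟨l, C, hl, hu⟩ := huni X₁ X₂ G hG hfix (dist y₂ (k • y₂) + 1)
  set o : X₁ := c 0 with ho
  set K₀ : ℝ := dist o (k • o) with hK₀
  have hK0 : 0 ≤ K₀ := dist_nonneg
  by_contra hcon
  push Not at hcon
  set η : ℝ := min 1 (l ^ 2 / 4) with hη
  have hη0 : 0 < η := lt_min one_pos (by positivity)
  have hη1 : η ≤ 1 := min_le_left _ _
  have hη2 : η ≤ l ^ 2 / 4 := min_le_right _ _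
  set κ : ℝ := 2 - η / 16 with hκ
  obtain ⟨t₁, ht₁, hlt⟩ := hcon κ K₀ (by linarith)
  have ht₁' : 0 < t₁ := by
    rcases ht₁.eq_or_lt with h | h
    · exfalso
      rw [← h] at hlt
      simp only [mul_zero, zero_add, neg_zero] at hlt
      rw [dist_comm] at hlt
      exact lt_irrefl _ hlt
    · exact h
  -- linear growth
  have hgrow : ∀ t, t₁ ≤ t → κ * t ≤ dist (k • c t) (c (-t)) := by
    intro t ht
    have ht0 : 0 < t := ht₁'.trans_le ht
    have h3 := (hcmp X₁ hG.cn₁).2 (k • c 0) (k • c t) (c 0) (c (-t)) (t₁ / t) (k • c t₁) (c (-t₁))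
      ⟨by
        rw [dist_smul, dist_smul, hc.1.dist_eq, hc.1.dist_eq, Real.dist_eq, Real.dist_eq,
          zero_sub, zero_sub, abs_neg, abs_neg, abs_of_pos ht₁', abs_of_pos ht0,
          div_mul_cancel₀ _ ht0.ne'],
       by
        rw [dist_smul, dist_smul, hc.1.dist_eq, hc.1.dist_eq, Real.dist_eq, Real.dist_eq,
          zero_sub, abs_neg, abs_of_pos ht0, abs_sub_comm, abs_of_nonneg (by linarith),
          div_mul_cancel₀ _ ht0.ne']⟩
      ⟨by
        rw [hc.1.dist_eq, hc.1.dist_eq, Real.dist_eq, Real.dist_eq, zero_sub, zero_sub,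
          neg_neg, neg_neg, abs_of_pos ht₁', abs_of_pos ht0, div_mul_cancel₀ _ ht0.ne'],
       by
        rw [hc.1.dist_eq, hc.1.dist_eq, Real.dist_eq, Real.dist_eq, zero_sub, neg_neg,
          abs_of_pos ht0, div_mul_cancel₀ _ ht0.ne', abs_of_nonneg (by linarith)]
        ring⟩ (div_nonneg ht₁ ht0.le) ((div_le_one ht0).2 ht)
    have h4 : dist (k • c 0) (c 0) = K₀ := by rw [dist_comm]
    rw [h4] at h3
    have h5 : κ * t₁ + K₀ < (1 - t₁ / t) * K₀ + t₁ / t * dist (k • c t) (c (-t)) :=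
      hlt.trans_le h3
    have h6 : 0 ≤ t₁ / t * K₀ := mul_nonneg (div_nonneg ht₁ ht0.le) hK0
    have h7 : κ * t₁ < t₁ / t * dist (k • c t) (c (-t)) := by linarith
    have h8 : t₁ / t * dist (k • c t) (c (-t)) = t₁ * (dist (k • c t) (c (-t)) / t) := by ring
    rw [h8, mul_comm κ] at h7
    have h9 := lt_of_mul_lt_mul_left h7 ht₁
    rw [lt_div_iff₀ ht0] at h9
    exact h9.le
  -- a large power
  set T : ℝ := max t₁ (max (64 * K₀ / η) (K₀ + |C| + 1)) with hT
  obtain ⟨N, hN⟩ := exists_nat_ge (T / τ)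
  obtain ⟨i, hi1, hi2, hi3⟩ := (hno.and (hL.and (eventually_ge_atTop N))).exists
  set t : ℝ := n i * τ with htdef
  have htT : T ≤ t := by
    rw [div_le_iff₀ hτ] at hN
    refine hN.trans ?_
    have : (N : ℝ) ≤ n i := by exact_mod_cast hi3.trans (hni i)
    exact mul_le_mul_of_nonneg_right this hτ.le
  have htt₁ : t₁ ≤ t := (le_max_left _ _).trans htT
  have htK : 64 * K₀ / η ≤ t := (le_max_left _ _).trans ((le_max_right _ _).trans htT)
  have htC : K₀ + |C| + 1 ≤ t := (le_max_right _ _).trans ((le_max_right _ _).trans htT)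
  have ht0 : 0 < t := ht₁'.trans_le htt₁
  obtain ⟨x, hx, hgr⟩ := hu (g ^ n i * k) hi1 ⟨y₂, hi2⟩
  set w : G := g ^ n i * k with hwdef
  have hgo : g ^ n i • o = c t := by
    rw [ho, axis_pow hc, zero_add]
  have hgm : g ^ n i • c (-t) = o := by
    rw [axis_pow hc, htdef, neg_add_cancel]
  set A := dist o (w • o) with hA
  set D := dist o (w • w • o) with hD
  set r := dist o x with hr
  have hot : dist o (c t) = t := by
    rw [ho, hc.1.dist_eq, Real.dist_eq, zero_sub, abs_neg, abs_of_pos ht0]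
  have hwo : dist (c t) (w • o) = K₀ := by
    rw [hwdef, mul_smul, ← hgo, dist_smul]
  have hA1 : A ≤ t + K₀ := by
    have := dist_triangle o (c t) (w • o)
    rw [hot, hwo] at this
    exact this
  have hA2 : t - K₀ ≤ A := by
    have := dist_triangle o (w • o) (c t)
    rw [hot, dist_comm (w • o), hwo] at this
    linarith
  have hD1 : κ * t - K₀ ≤ D := by
    have e1 : dist (g ^ n i • c (-t)) (g ^ n i • k • w • o) = D := by
      rw [hgm, hD]
      conv_rhs => rw [hwdef, mul_smul]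
    rw [dist_smul] at e1
    have e2 : dist (k • w • o) (k • c t) = K₀ := by rw [dist_smul, dist_comm, hwo]
    have e3 := dist_triangle (c (-t)) (k • w • o) (k • c t)
    rw [e1, e2, dist_comm (c (-t))] at e3
    have e4 := hgrow t htt₁
    linarith
  have hApos : 0 < A := by
    have := abs_nonneg C
    linarith
  have hAC : A + C ≤ 2 * A := by
    have := le_abs_self C
    linarith
  have hr0 : 0 ≤ r := dist_nonneg
  have hD0 : 0 ≤ D := dist_nonneg
  have hAr : A ≤ 2 * r := by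
    have e1 : dist x (w • o) = r := by
      conv_lhs => rw [← hx, dist_smul]
      rw [dist_comm]
    have := dist_triangle o x (w • o)
    rw [e1] at this
    linarith
  have hlr : l * r ≤ 2 * A := (hgr o).trans hAC
  exact num_part hη0 hη1 hη2 hl hK0 hApos hr0 hAr hA1 (by rwa [div_le_iff₀ hη0] at htK) hD1 hlr
    (t_rot X₁ G hG.cn₁ w x o hx)

end Pool.Agent.Q216.PD
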