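import Pool.Agent.Q216.PD.Stm
import Pool.Agent.Y219.EL.Axis

/-!
# Project PD: axes through points of minimal displacement (adapted from Y219.EL.Axis)
-/

set_option autoImplicit false

universe u v

open Metric Set Filter Topology
open Pool.Agent.TH60.FP Pool.Agent.Y34.HB Pool.Agent.Y34.EL Pool.Agent.Y155.HB Pool.Agent.Y219.EL

namespace Pool.Agent.Q216.PD

theorem axis_of_min {X : Type u} [MetricSpace X] [ProperSpace X] {G : Type v} [Group G]
    [MulAction G X] [IsIsometricSMul G X] (hX : CN X) (g : G) (y : X)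
    (hy : ∀ z : X, dist y (g • y) ≤ dist z (g • z)) (hδ0 : 0 < dist y (g • y)) :
    ∃ c : ℝ → X, Axis g (dist y (g • y)) c ∧ c 0 = y := by
  set δ : ℝ := dist y (g • y) with hδ
  have horb := orbit_dist g (doubling hX g hy · y)
  have hz := orbit_zdist g horb
  rw [← hδ] at hz
  -- the segment
  have hseg : ∀ s : ℝ, ∃ m : X, 0 ≤ s → s ≤ δ → Dv y (g • y) (s / δ) m := by
    intro s
    by_cases h : 0 ≤ s ∧ s ≤ δ
    · obtain ⟨m, hm⟩ := dv_exists hX y (g • y) (s / δ) (div_nonneg h.1 hδ0.le)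
        ((div_le_one hδ0).2 h.2)
      exact ⟨m, fun _ _ => hm⟩
    · exact ⟨y, fun h1 h2 => absurd ⟨h1, h2⟩ h⟩
  choose w hw using hseg
  have hww : ∀ s t : ℝ, 0 ≤ s → s ≤ t → t ≤ δ → dist (w s) (w t) = t - s := by
    intro s t hs hst ht
    rw [dv_dist (hw s hs (hst.trans ht)) (hw t (hs.trans hst) ht) (div_nonneg hs hδ0.le)
      ((div_le_one hδ0).2 ht) (div_le_div_of_nonneg_right hst hδ0.le), ← hδ, ← sub_div,
      div_mul_cancel₀ _ hδ0.ne']
  have hyw : ∀ s : ℝ, 0 ≤ s → s ≤ δ → dist y (w s) ≤ s := by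
    intro s hs hsδ
    have h1 := (hw s hs hsδ).left (div_nonneg hs hδ0.le)
    rwa [← hδ, div_mul_cancel₀ _ hδ0.ne'] at h1
  have hgw : ∀ s : ℝ, 0 ≤ s → s ≤ δ → dist (w s) (g • y) ≤ δ - s := by
    intro s hs hsδ
    have h1 := (hw s hs hsδ).right ((div_le_one hδ0).2 hsδ)
    rwa [← hδ, sub_mul, one_mul, div_mul_cancel₀ _ hδ0.ne'] at h1
  -- the axis
  set i : ℝ → ℤ := fun t => ⌊t / δ⌋ with hi
  set c : ℝ → X := fun t => g ^ i t • w (t - i t * δ) with hc
  have hi1 : ∀ t, 0 ≤ t - i t * δ := by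
    intro t
    have h1 : (i t : ℝ) ≤ t / δ := Int.floor_le _
    rw [le_div_iff₀ hδ0] at h1
    linarith
  have hi2 : ∀ t, t - i t * δ ≤ δ := by
    intro t
    have h1 : t / δ < i t + 1 := Int.lt_floor_add_one _
    rw [div_lt_iff₀ hδ0] at h1
    linarith
  have hle : ∀ s t : ℝ, s ≤ t → dist (c s) (c t) = t - s := by
    intro s t hst
    have hij : i s ≤ i t := Int.floor_le_floor (div_le_div_of_nonneg_right hst hδ0.le)
    rcases hij.eq_or_lt with h | h
    · show dist (g ^ i s • w (s - i s * δ)) (g ^ i t • w (t - i t * δ)) = t - s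
      rw [← h, dist_smul, hww _ _ (hi1 s) (by linarith) (by rw [h]; exact hi2 t)]
      ring
    · have hcs1 : dist (g ^ i s • y) (c s) ≤ s - i s * δ := by
        show dist (g ^ i s • y) (g ^ i s • w (s - i s * δ)) ≤ _
        rw [dist_smul]
        exact hyw _ (hi1 s) (hi2 s)
      have hcs2 : dist (c s) (g ^ (i s + 1) • y) ≤ δ - (s - i s * δ) := by
        show dist (g ^ i s • w (s - i s * δ)) (g ^ (i s + 1) • y) ≤ _
        rw [zpow_add_one, mul_smul, dist_smul]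
        exact hgw _ (hi1 s) (hi2 s)
      have hct1 : dist (g ^ i t • y) (c t) ≤ t - i t * δ := by
        show dist (g ^ i t • y) (g ^ i t • w (t - i t * δ)) ≤ _
        rw [dist_smul]
        exact hyw _ (hi1 t) (hi2 t)
      have hct2 : dist (c t) (g ^ (i t + 1) • y) ≤ δ - (t - i t * δ) := by
        show dist (g ^ i t • w (t - i t * δ)) (g ^ (i t + 1) • y) ≤ _
        rw [zpow_add_one, mul_smul, dist_smul]
        exact hgw _ (hi1 t) (hi2 t)
      apply le_antisymm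
      · have h1 := dist_triangle4 (c s) (g ^ (i s + 1) • y) (g ^ i t • y) (c t)
        have h2 := hz (i s + 1) (i t) h
        push_cast at h2
        rw [h2] at h1
        nlinarith
      · have h1 := dist_triangle4 (g ^ i s • y) (c s) (c t) (g ^ (i t + 1) • y)
        have h2 := hz (i s) (i t + 1) (by omega)
        push_cast at h2
        rw [h2] at h1
        nlinarith
  refine ⟨c, ⟨Isometry.of_dist_eq fun s t => ?_, fun t => ?_⟩, ?_⟩
  rotate_left 2
  · show g ^ i 0 • w (0 - i 0 * δ) = y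
    have h0 : i 0 = 0 := by simp [hi]
    rw [h0, zpow_zero, one_smul, Int.cast_zero, zero_mul, sub_zero]
    exact (dist_le_zero.1 (hyw 0 le_rfl hδ0.le)).symm
  · rcases le_total s t with h | h
    · rw [hle s t h, Real.dist_eq, abs_sub_comm, abs_of_nonneg (by linarith)]
    · rw [dist_comm, hle t s h, Real.dist_eq, abs_of_nonneg (by linarith)]
  · have h1 : i (t + δ) = i t + 1 := by
      show ⌊(t + δ) / δ⌋ = ⌊t / δ⌋ + 1
      rw [add_div, div_self hδ0.ne', Int.floor_add_one]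
    show g • g ^ i t • w (t - i t * δ) = g ^ i (t + δ) • w (t + δ - i (t + δ) * δ)
    rw [h1, add_comm (i t) 1, zpow_add, zpow_one, mul_smul]
    congr 3
    push_cast
    ring

/-- componentwise minimal displacement -/
theorem exists_min2 {X₁ X₂ : Type u} [MetricSpace X₁] [MetricSpace X₂] {G : Type v} [Group G]
    [MulAction G X₁] [MulAction G X₂] (hG : Geo (Pr X₁ X₂) G) (hne₁ : Nonempty X₁)
    (hne₂ : Nonempty X₂) (g : G) :
    (∃ y : X₁, ∀ z : X₁, dist y (g • y) ≤ dist z (g • z)) ∧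
      ∃ y : X₂, ∀ z : X₂, dist y (g • y) ≤ dist z (g • z) := by
  obtain ⟨a⟩ := hne₁
  obtain ⟨b⟩ := hne₂
  obtain ⟨y, hy⟩ := exists_min hG g ⟨a, b⟩
  refine ⟨⟨y.fst, fun z => ?_⟩, ⟨y.snd, fun z => ?_⟩⟩
  · have h := hy ⟨z, y.snd⟩
    have h1 : dist y (g • y) ^ 2 ≤ dist (⟨z, y.snd⟩ : Pr X₁ X₂) (g • ⟨z, y.snd⟩) ^ 2 :=
      pow_le_pow_left₀ dist_nonneg h 2
    rw [dist_sq, dist_sq] at h1
    simp only [smul_fst, smul_snd] at h1
    exact le_of_sq' dist_nonneg (by linarith)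
  · have h := hy ⟨y.fst, z⟩
    have h1 : dist y (g • y) ^ 2 ≤ dist (⟨y.fst, z⟩ : Pr X₁ X₂) (g • ⟨y.fst, z⟩) ^ 2 :=
      pow_le_pow_left₀ dist_nonneg h 2
    rw [dist_sq, dist_sq] at h1
    simp only [smul_fst, smul_snd] at h1
    exact le_of_sq' dist_nonneg (by linarith)

theorem axis_of_noFix {X : Type u} [MetricSpace X] [ProperSpace X] {G : Type v} [Group G]
    [MulAction G X] [IsIsometricSMul G X] (hX : CN X) (g : G)
    (hmin : ∃ y : X, ∀ z : X, dist y (g • y) ≤ dist z (g • z)) (hno : ∀ x : X, g • x ≠ x) :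
    ∃ (τ : ℝ) (c : ℝ → X), 0 < τ ∧ Axis g τ c ∧ ∀ z : X, τ ≤ dist z (g • z) := by
  obtain ⟨y, hy⟩ := hmin
  have h0 : 0 < dist y (g • y) := dist_pos.2 (hno y).symm
  obtain ⟨c, hc, -⟩ := axis_of_min hX g y hy h0
  exact ⟨_, c, h0, hc, hy⟩

theorem t_min : S_MIN.{u, v} := by
  intro X₁ X₂ _ _ G _ _ _ hG h1 h2 g hno
  have := hG.proper₂
  have := hG.isom₂
  exact axis_of_noFix hG.cn₂ g (exists_min2 hG.geo h1 h2 g).2 hno

end Pool.Agent.Q216.PD
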