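import Pool.Agent.Q216.PD.Stm

/-!
# Project PD: the geometric action on the product
-/

set_option autoImplicit false

universe u v

open Metric Set Filter Topology
open Pool.Agent.TH60.FP Pool.Agent.Y34.HB Pool.Agent.Y34.EL

namespace Pool.Agent.Q216.PD

section
variable {X₁ X₂ : Type u} [MetricSpace X₁] [MetricSpace X₂]

theorem cont_mk : Continuous fun p : X₁ × X₂ => (⟨p.1, p.2⟩ : Pr X₁ X₂) := by
  rw [Metric.continuous_iff]
  intro b ε hε
  refine ⟨ε / 2, by positivity, fun a ha => ?_⟩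
  have h1 := le_add (⟨a.1, a.2⟩ : Pr X₁ X₂) ⟨b.1, b.2⟩
  have h2 : dist a.1 b.1 ≤ dist a b := by rw [Prod.dist_eq]; exact le_max_left _ _
  have h3 : dist a.2 b.2 ≤ dist a b := by rw [Prod.dist_eq]; exact le_max_right _ _
  simp only at h1
  linarith

theorem cont_un : Continuous fun p : Pr X₁ X₂ => ((p.fst, p.snd) : X₁ × X₂) := by
  rw [Metric.continuous_iff]
  intro b ε hε
  refine ⟨ε, hε, fun a ha => ?_⟩
  rw [Prod.dist_eq]
  exact max_lt ((fst_le a b).trans_lt ha) ((snd_le a b).trans_lt ha)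

theorem proper_pr [ProperSpace X₁] [ProperSpace X₂] : ProperSpace (Pr X₁ X₂) where
  isCompact_closedBall p r := by
    refine IsCompact.of_isClosed_subset (((isCompact_closedBall p.fst r).prod
      (isCompact_closedBall p.snd r)).image cont_mk) isClosed_closedBall ?_
    intro q hq
    rw [mem_closedBall] at hq
    exact ⟨(q.fst, q.snd), ⟨mem_closedBall.2 ((fst_le q p).trans hq),
      mem_closedBall.2 ((snd_le q p).trans hq)⟩, rfl⟩

theorem cn_pr (h1 : CN X₁) (h2 : CN X₂) : CN (Pr X₁ X₂) := by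
  intro p q
  obtain ⟨m₁, hm₁⟩ := h1 p.fst q.fst
  obtain ⟨m₂, hm₂⟩ := h2 p.snd q.snd
  refine ⟨⟨m₁, m₂⟩, fun x => ?_⟩
  rw [dist_sq, dist_sq, dist_sq, dist_sq]
  have a := hm₁ x.fst
  have b := hm₂ x.snd
  simp only
  linarith

variable {G : Type v} [Group G] [MulAction G X₁] [MulAction G X₂]

theorem isom_pr [IsIsometricSMul G X₁] [IsIsometricSMul G X₂] : IsIsometricSMul G (Pr X₁ X₂) where
  isometry_smul g := by
    refine Isometry.of_dist_eq fun p q => ?_
    rw [dist_def, dist_def, smul_fst, smul_fst, smul_snd, smul_snd, dist_smul, dist_smul]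

theorem disc_pr [ProperlyDiscontinuousSMul G (X₁ × X₂)] :
    ProperlyDiscontinuousSMul G (Pr X₁ X₂) where
  finite_disjoint_inter_image {K L} hK hL := by
    refine (ProperlyDiscontinuousSMul.finite_disjoint_inter_image (Γ := G) (hK.image cont_un)
      (hL.image cont_un)).subset ?_
    rintro g ⟨y, ⟨x, hx, rfl⟩, hy⟩
    exact ⟨_, ⟨_, ⟨x, hx, rfl⟩, rfl⟩, ⟨g • x, hy, rfl⟩⟩

theorem pgeo [ProperSpace X₁] [ProperSpace X₂] (h1 : CN X₁) (h2 : CN X₂)
    [IsIsometricSMul G X₁] [IsIsometricSMul G X₂] [ProperlyDiscontinuousSMul G (X₁ × X₂)]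
    (hcc : ∃ K : Set (X₁ × X₂), IsCompact K ∧ ∀ x : X₁ × X₂, ∃ g : G, g • x ∈ K) :
    PGeo X₁ X₂ G where
  proper₁ := inferInstance
  proper₂ := inferInstance
  isom₁ := inferInstance
  isom₂ := inferInstance
  cn₁ := h1
  cn₂ := h2
  geo :=
    { proper := proper_pr
      isom := isom_pr
      disc := disc_pr
      cc := by
        obtain ⟨K, hK, h⟩ := hcc
        refine ⟨(fun p : X₁ × X₂ => (⟨p.1, p.2⟩ : Pr X₁ X₂)) '' K, hK.image cont_mk, fun x => ?_⟩
        obtain ⟨g, hg⟩ := h (x.fst, x.snd)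
        exact ⟨g, _, hg, rfl⟩
      cn := cn_pr h1 h2 }

/-- the other order of the factors -/
theorem swap_cont : Continuous fun p : Pr X₁ X₂ => (⟨p.snd, p.fst⟩ : Pr X₂ X₁) := by
  rw [Metric.continuous_iff]
  intro b ε hε
  refine ⟨ε, hε, fun a ha => ?_⟩
  rw [dist_def] at ha ⊢
  rw [add_comm]
  exact ha

theorem PGeo.swap (h : PGeo X₁ X₂ G) : PGeo X₂ X₁ G where
  proper₁ := h.proper₂
  proper₂ := h.proper₁
  isom₁ := h.isom₂
  isom₂ := h.isom₁
  cn₁ := h.cn₂
  cn₂ := h.cn₁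
  geo := by
    have := h.proper₁
    have := h.proper₂
    have := h.isom₁
    have := h.isom₂
    have := h.geo.disc
    exact
    { proper := proper_pr
      isom := isom_pr
      disc :=
        { finite_disjoint_inter_image := fun {K L} hK hL => by
            refine (ProperlyDiscontinuousSMul.finite_disjoint_inter_image (Γ := G)
              (T := Pr X₁ X₂) (hK.image swap_cont) (hL.image swap_cont)).subset ?_
            rintro g ⟨y, ⟨x, hx, rfl⟩, hy⟩
            exact ⟨_, ⟨_, ⟨x, hx, rfl⟩, rfl⟩, ⟨g • x, hy, rfl⟩⟩ }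
      cc := by
        obtain ⟨K, hK, h⟩ := h.geo.cc
        refine ⟨(fun p : Pr X₁ X₂ => (⟨p.snd, p.fst⟩ : Pr X₂ X₁)) '' K, hK.image swap_cont,
          fun x => ?_⟩
        obtain ⟨g, hg⟩ := h ⟨x.snd, x.fst⟩
        exact ⟨g, _, hg, rfl⟩
      cn := cn_pr h.cn₂ h.cn₁ }

end

end Pool.Agent.Q216.PD
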