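import Pool.Agent.Q216.PD.Ang

/-!
# Project PD: the theorem in its final form
-/

set_option autoImplicit false

universe u v

open Metric Set Filter Topology
open Pool.Agent.TH60.FP Pool.Agent.Y34.HB Pool.Agent.Y34.EL Pool.Agent.Y155.HB Pool.Agent.Y219.EL

namespace Pool.Agent.Q216.PD

/-- the properties of the first factor if there is no `ℤ²` -/
def Sd (X₁ X₂ : Type u) [MetricSpace X₁] [MetricSpace X₂] (G : Type v) [Group G]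
    [MulAction G X₁] [MulAction G X₂] : Prop :=
  (∃ (g : G) (τ : ℝ) (c : ℝ → X₁), 0 < τ ∧ Axis g τ c) ∧
  (∀ (g : G) (τ : ℝ) (c : ℝ → X₁), 0 < τ → Axis g τ c → Many c) ∧
  (∀ k : G, (∀ x : X₂, k • x ≠ x) → ∃ R : ℝ, ∀ x y : X₁, k • x = x → k • y = y → dist x y ≤ R) ∧
  ∀ (g k : G) (τ : ℝ) (c : ℝ → X₁), 0 < τ → Axis g τ c → (∀ x : X₂, k • x ≠ x) →
    ∃ κ K : ℝ, κ < 2 ∧ ∀ t, 0 ≤ t → dist (k • c t) (c (-t)) ≤ κ * t + K

theorem t_final (hst : S_STEW.{u}) (hcmp : S_CMP.{u}) (hPERPT : S_PERPT.{u}) (hHPC : S_HPC.{u})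
    (hWIDE : S_WIDE.{u, v}) (hreg : S_REG.{u, v}) (hrec : S_REC.{u, v}) (hlim : S_LIM.{u, v})
    (hpow : S_POW.{u, v}) (hrk : S_RK.{u, v}) (huni : S_UNI.{u, v})
    (X₁ X₂ : Type u) [MetricSpace X₁] [MetricSpace X₂] (G : Type v) [Group G]
    [MulAction G X₁] [MulAction G X₂] (hG : PGeo X₁ X₂ G)
    (hub₁ : ∀ (x : X₁) (r : ℝ), ∃ y : X₁, r ≤ dist x y)
    (hub₂ : ∀ (x : X₂) (r : ℝ), ∃ y : X₂, r ≤ dist x y) (hne1 : Nonempty X₁)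
    (hne2 : Nonempty X₂) :
    HasZ2 G ∨ ((∀ g : G, (∃ x : X₁, g • x = x) ∨ ∃ x : X₂, g • x = x) ∧
      Sd X₁ X₂ G ∧ Sd X₂ X₁ G) := by
  have hmain : S_MAIN.{u, v} := t_main hreg hrec hlim hpow hrk
  rcases t_dich2 hPERPT hHPC hWIDE hreg hrec hmain X₁ X₂ G hG hub₁ hub₂ hne1 hne2 with
    h | ⟨ha, hb, hc, hd, he⟩
  · exact Or.inl h
  by_cases hz : HasZ2 G
  · exact Or.inl hz
  exact Or.inr ⟨ha, ⟨hb, hd, fun k hk => (fix_all hst hWIDE hreg hG hne1 hne2 hz k hk).2,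
    fun g k τ c hτ hax hk => ang hst hcmp hWIDE hreg hlim hpow huni hG hne1 hne2 hz g τ c hτ hax
      k hk⟩, ⟨hc, he, fun k hk => (fix_all hst hWIDE hreg hG.swap hne2 hne1 hz k hk).2,
    fun g k τ c hτ hax hk => ang hst hcmp hWIDE hreg hlim hpow huni hG.swap hne2 hne1 hz g τ c
      hτ hax k hk⟩⟩

/-- an element without fixed points in the second factor such that some power has an unbounded set
of fixed points in the first factor -/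
theorem of_unbounded (hst : S_STEW.{u}) (hWIDE : S_WIDE.{u, v})
    {X₁ X₂ : Type u} [MetricSpace X₁]
    [MetricSpace X₂] {G : Type v} [Group G] [MulAction G X₁] [MulAction G X₂]
    (hG : PGeo X₁ X₂ G) (h1 : Nonempty X₁) (h2 : Nonempty X₂) (g : G)
    (hn : ∀ x : X₂, g • x ≠ x) (n : ℕ) (hn0 : 0 < n)
    (hu : ∀ R : ℝ, ∃ x y : X₁, g ^ n • x = x ∧ g ^ n • y = y ∧ R ≤ dist x y) : HasZ2 G := by
  have := hG.isom₂
  obtain ⟨τ, c, hτ, hc, -⟩ := t_min X₁ X₂ G hG h1 h2 g hn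
  have hax : Axis (g ^ n) (n * τ) c := ⟨hc.1, fun t => axis_pow hc n t⟩
  exact fix_bdd hst hWIDE hG h1 h2 (g ^ n)
    (noFix_of_axis (mul_pos (by exact_mod_cast hn0) hτ) hax) hu

/-- the consequences -/
theorem t_cor (hst : S_STEW.{u}) (hWIDE : S_WIDE.{u, v}) (hreg : S_REG.{u, v})
    (hrec : S_REC.{u, v}) (hlim : S_LIM.{u, v}) (hpow : S_POW.{u, v}) (hrk : S_RK.{u, v})
    (X₁ X₂ : Type u) [MetricSpace X₁] [MetricSpace X₂] (G : Type v) [Group G]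
    [MulAction G X₁] [MulAction G X₂] (hG : PGeo X₁ X₂ G)
    (hub₁ : ∀ (x : X₁) (r : ℝ), ∃ y : X₁, r ≤ dist x y)
    (hub₂ : ∀ (x : X₂) (r : ℝ), ∃ y : X₂, r ≤ dist x y) (hne1 : Nonempty X₁)
    (hne2 : Nonempty X₂) :
    (((∀ c : ℝ → X₁, HP c = ∅) ∨ ∀ c : ℝ → X₂, HP c = ∅) → HasZ2 G) ∧
    ((∀ g : G, (∃ x : X₁, g • x = x) → ∃ n : ℕ, 0 < n ∧
      ∀ R : ℝ, ∃ x y : X₁, g ^ n • x = x ∧ g ^ n • y = y ∧ R ≤ dist x y) → HasZ2 G) := by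
  have hmain : S_MAIN.{u, v} := t_main hreg hrec hlim hpow hrk
  have hex : ∃ h : G, ∀ x : X₂, h • x ≠ x := by
    obtain ⟨x⟩ := hne1
    obtain ⟨h, -, hh⟩ := hrec X₁ X₂ G hG hub₂ hne2 x 1 1 one_pos
    exact ⟨h, hh⟩
  obtain ⟨h, hh⟩ := hex
  refine ⟨?_, fun hu => ?_⟩
  · rintro (hno | hno)
    · obtain ⟨x⟩ := hne2
      obtain ⟨h, -, hh⟩ := hrec X₂ X₁ G hG.swap hub₁ hne1 x 1 1 one_pos
      obtain ⟨τ, c, ht, hc, -⟩ := t_min X₂ X₁ G hG.swap ⟨x⟩ hne1 h hh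
      exact hmain X₁ X₂ G hG hub₂ hne1 ⟨x⟩ h τ c ht hc (hno c)
    · obtain ⟨τ, c, ht, hc, -⟩ := t_min X₁ X₂ G hG hne1 hne2 h hh
      exact hmain X₂ X₁ G hG.swap hub₁ hne2 hne1 h τ c ht hc (hno c)
  · by_cases hn1 : ∃ x : X₁, h • x = x
    · obtain ⟨n, hn0, hun⟩ := hu h hn1
      exact of_unbounded hst hWIDE hG hne1 hne2 h hh n hn0 hun
    · push Not at hn1
      exact axes_both hreg hG hne1 hne2 h hn1 hh

end Pool.Agent.Q216.PD
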