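import Pool.Agent.Q216.PD.Half
import Pool.Agent.Y93.EL.Stew

/-!
# Project PD: fixed point sets in one factor of elements with axes in the other factor
-/

set_option autoImplicit false

universe u v

open Metric Set Filter Topology
open Pool.Agent.TH60.FP Pool.Agent.Y34.HB Pool.Agent.Y34.EL Pool.Agent.Y155.HB Pool.Agent.Y219.EL

namespace Pool.Agent.Q216.PD

/-- the points of the segment between two fixed points are fixed points -/
theorem fix_seg (hst : S_STEW.{u}) {X : Type u} [MetricSpace X] [ProperSpace X] {G : Type v}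
    [Group G] [MulAction G X] [IsIsometricSMul G X] (hX : CN X) (g : G) {x y : X}
    (hx : g • x = x) (hy : g • y = y) :
    ∃ w : ℝ → X, (∀ s, 0 ≤ s → s ≤ dist x y → g • w s = w s) ∧
      ∀ s s', 0 ≤ s → s ≤ dist x y → 0 ≤ s' → s' ≤ dist x y → dist (w s) (w s') = |s - s'| := by
  rcases eq_or_ne x y with rfl | hne
  · refine ⟨fun _ => x, fun _ _ _ => hx, fun s s' h1 h2 h3 h4 => ?_⟩
    rw [dist_self] at h2 h4 ⊢
    rw [le_antisymm h2 h1, le_antisymm h4 h3]
    simp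
  have hD : 0 < dist x y := dist_pos.2 hne
  have hseg : ∀ s : ℝ, ∃ m : X, 0 ≤ s → s ≤ dist x y → Dv x y (s / dist x y) m := by
    intro s
    by_cases h : 0 ≤ s ∧ s ≤ dist x y
    · obtain ⟨m, hm⟩ := dv_exists hX x y (s / dist x y) (div_nonneg h.1 hD.le)
        ((div_le_one hD).2 h.2)
      exact ⟨m, fun _ _ => hm⟩
    · exact ⟨x, fun h1 h2 => absurd ⟨h1, h2⟩ h⟩
  choose w hw using hseg
  have hww : ∀ s t : ℝ, 0 ≤ s → s ≤ t → t ≤ dist x y → dist (w s) (w t) = t - s := by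
    intro s t hs hst ht
    rw [dv_dist (hw s hs (hst.trans ht)) (hw t (hs.trans hst) ht) (div_nonneg hs hD.le)
      ((div_le_one hD).2 ht) (div_le_div_of_nonneg_right hst hD.le), ← sub_div,
      div_mul_cancel₀ _ hD.ne']
  have hon : ∀ s, 0 ≤ s → s ≤ dist x y → On x y s (w s) := by
    intro s h0 h1
    have e1 := (hw s h0 h1).left (div_nonneg h0 hD.le)
    have e2 := (hw s h0 h1).right ((div_le_one hD).2 h1)
    rw [div_mul_cancel₀ _ hD.ne'] at e1
    rw [sub_mul, one_mul, div_mul_cancel₀ _ hD.ne'] at e2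
    have e3 := dist_triangle x (w s) y
    exact ⟨by linarith, by linarith⟩
  refine ⟨w, fun s h0 h1 => ?_, fun s s' h0 h1 h2 h3 => ?_⟩
  · have h := hon s h0 h1
    refine (hst X hX).2.1 x y s (g • w s) (w s) ⟨?_, ?_⟩ h
    · conv_lhs => rw [← hx]
      rw [dist_smul]
      exact h.1
    · conv_lhs => rw [← hy]
      rw [dist_smul]
      exact h.2
  · rcases le_total s s' with h | h
    · rw [hww s s' h0 h h3, abs_sub_comm, abs_of_nonneg (by linarith)]
    · rw [dist_comm, hww s' s h2 h h1, abs_of_nonneg (by linarith)]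

/-- unbounded fixed point sets in the first factor give `ℤ²` -/
theorem fix_bdd (hst : S_STEW.{u}) (hWIDE : S_WIDE.{u, v}) {X₁ X₂ : Type u} [MetricSpace X₁]
    [MetricSpace X₂] {G : Type v} [Group G] [MulAction G X₁] [MulAction G X₂]
    (hG : PGeo X₁ X₂ G) (h1 : Nonempty X₁) (h2 : Nonempty X₂) (g : G)
    (hn : ∀ x : X₂, g • x ≠ x)
    (hu : ∀ R : ℝ, ∃ x y : X₁, g • x = x ∧ g • y = y ∧ R ≤ dist x y) : HasZ2 G := by
  have := hG.proper₁
  have := hG.isom₁
  obtain ⟨τ, c, hτ, hc, -⟩ := t_min X₁ X₂ G hG h1 h2 g hn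
  refine hWIDE (Pr X₁ X₂) G hG.geo τ hτ fun m => ?_
  obtain ⟨x, y, hx, hy, hR⟩ := hu m
  obtain ⟨w, hw1, hw2⟩ := fix_seg hst hG.cn₁ g hx hy
  refine ⟨g, fun t s => ⟨w s, c t⟩, ?_, fun t s h0 h1 => ?_⟩
  · intro t s t' s' a b a' b'
    rw [dist_sq]
    simp only
    rw [hw2 s s' a (b.trans hR) a' (b'.trans hR), hc.1.dist_eq, Real.dist_eq, sq_abs, sq_abs]
    ring
  · exact Pr.ext (hw1 s h0 (h1.trans hR)) (hc.2 t)

end Pool.Agent.Q216.PD
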