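import Pool.Agent.Q216.PD.Main

/-!
# Project PD: half-planes bounded by axes in a factor
-/

set_option autoImplicit false

universe u v

open Metric Set Filter Topology
open Pool.Agent.TH60.FP Pool.Agent.Y34.HB Pool.Agent.Y34.EL

namespace Pool.Agent.Q216.PD

/-- `c` bounds continuum many half-planes -/
def Many {X : Type u} [MetricSpace X] (c : ℝ → X) : Prop :=
  ∃ Φ : (ℕ → Bool) → (ℝ × NNReal → X), Function.Injective Φ ∧ ∀ x, Φ x ∈ HP c

/-- if an axis of `g` bounds at least one and at most countably many half-planes then some power of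
`g` has an invariant half-plane -/
theorem halfplanes' (hPERPT : S_PERPT.{u}) (hHPC : S_HPC.{u})
    {X : Type u} [MetricSpace X] [ProperSpace X] {G : Type v} [Group G] [MulAction G X]
    [IsIsometricSMul G X]
    (g : G) (τ : ℝ) (c : ℝ → X) (hc : Axis g τ c) :
    (∃ n : ℕ, 0 < n ∧ ∃ H ∈ HP c, ∀ t s, g ^ n • H (t, s) = H (t + n * τ, s)) ∨ HP c = ∅ ∨
      ∃ Φ : (ℕ → Bool) → (ℝ × NNReal → X), Function.Injective Φ ∧ ∀ x, Φ x ∈ HP c := by
  obtain ⟨hcomp, hunc⟩ := hHPC X c hc.1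
  rcases (HP c).eq_empty_or_nonempty with he | ⟨H0, hH0⟩
  · exact Or.inr (Or.inl he)
  by_cases hct : (HP c).Countable
  swap
  · exact Or.inr (Or.inr (hunc hct))
  left
  -- the action of `g` on the half-planes
  have hF : ∀ H ∈ HP c, (fun p : ℝ × NNReal => g • H (p.1 - τ, p.2)) ∈ HP c := by
    rintro H ⟨h1, h2⟩
    refine ⟨fun p q => ?_, fun t => ?_⟩
    · rw [dist_smul, h1]
      simp only
      ring
    · show g • H (t - τ, 0) = c t
      rw [h2, hc.2, sub_add_cancel]
  have hinv : ∀ t, g⁻¹ • c (t + τ) = c t := by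
    intro t
    rw [← hc.2, inv_smul_smul]
  have hB : ∀ H ∈ HP c, (fun p : ℝ × NNReal => g⁻¹ • H (p.1 + τ, p.2)) ∈ HP c := by
    rintro H ⟨h1, h2⟩
    refine ⟨fun p q => ?_, fun t => ?_⟩
    · rw [dist_smul, h1]
      simp only
      ring
    · show g⁻¹ • H (t + τ, 0) = c t
      rw [h2, hinv]
  let T : HP c ≃ₜ HP c :=
    { toFun := fun H => ⟨fun p => g • H.1 (p.1 - τ, p.2), hF H.1 H.2⟩
      invFun := fun H => ⟨fun p => g⁻¹ • H.1 (p.1 + τ, p.2), hB H.1 H.2⟩
      left_inv := fun H => by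
        apply Subtype.ext
        funext p
        simp
      right_inv := fun H => by
        apply Subtype.ext
        funext p
        simp
      continuous_toFun := by
        refine Continuous.subtype_mk (continuous_pi fun p => ?_) _
        exact ((continuous_apply (p.1 - τ, p.2)).comp continuous_subtype_val).const_smul g
      continuous_invFun := by
        refine Continuous.subtype_mk (continuous_pi fun p => ?_) _
        exact ((continuous_apply (p.1 + τ, p.2)).comp continuous_subtype_val).const_smul g⁻¹ }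
  have : CompactSpace (HP c) := isCompact_iff_compactSpace.1 hcomp
  have : Nonempty (HP c) := ⟨⟨H0, hH0⟩⟩
  have : Countable (HP c) := hct.to_subtype
  obtain ⟨n, H, hn, hH⟩ := hPERPT (HP c) T
  have hit : ∀ (m : ℕ) (K : HP c) (p : ℝ × NNReal),
      ((T^[m]) K).1 p = g ^ m • K.1 (p.1 - m * τ, p.2) := by
    intro m
    induction m with
    | zero =>
      intro K p
      simp
    | succ m ih =>
      intro K p
      rw [Function.iterate_succ_apply, ih]
      show g ^ m • (g • K.1 (p.1 - m * τ - τ, p.2)) = _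
      rw [← mul_smul, ← pow_succ]
      congr 2
      push_cast
      ring_nf
  have hper : ∀ t s, g ^ n • H.1 (t, s) = H.1 (t + n * τ, s) := by
    intro t s
    have h1 := hit n H (t + n * τ, s)
    rw [hH] at h1
    rw [h1]
    simp
  exact ⟨n, hn, H.1, H.2, hper⟩

/-- an axis in the first factor with at least one and at most countably many half-planes gives
`ℤ²` -/
theorem many (hPERPT : S_PERPT.{u}) (hHPC : S_HPC.{u}) (hWIDE : S_WIDE.{u, v})
    (hreg : S_REG.{u, v}) {X₁ X₂ : Type u} [MetricSpace X₁] [MetricSpace X₂] {G : Type v}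
    [Group G] [MulAction G X₁] [MulAction G X₂] (hG : PGeo X₁ X₂ G) (hne1 : Nonempty X₁)
    (hne2 : Nonempty X₂) (g : G) (τ : ℝ) (c : ℝ → X₁) (hτ : 0 < τ) (hc : Axis g τ c)
    (hhp : (HP c).Nonempty) : HasZ2 G ∨ Many c := by
  have := hG.proper₁
  have := hG.isom₁
  rcases halfplanes' hPERPT hHPC g τ c hc with ⟨n, hn, H, hH, hper⟩ | h | h
  · left
    by_cases hg2 : ∀ x : X₂, g • x ≠ x
    · exact axes_both hreg hG hne1 hne2 g (noFix_of_axis hτ hc) hg2
    push Not at hg2
    obtain ⟨p, hp⟩ := hg2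
    have hpn : g ^ n • p = p := by
      clear hper hn
      induction n with
      | zero => rw [pow_zero, one_smul]
      | succ n ih => rw [pow_succ, mul_smul, hp, ih]
    refine hWIDE (Pr X₁ X₂) G hG.geo (n * τ) (by positivity) fun m =>
      ⟨g ^ n, fun t s => ⟨H (t, s.toNNReal), p⟩, ?_, fun t s _ _ => ?_⟩
    · intro t s t' s' h0 _ h1 _
      rw [dist_sq]
      simp only [dist_self]
      rw [hH.1]
      simp only [Real.coe_toNNReal s h0, Real.coe_toNNReal s' h1]
      ring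
    · exact Pr.ext (hper t _) hpn
  · rw [h] at hhp
    exact absurd hhp (by simp)
  · exact Or.inr h

/-- the theorem for product actions -/
theorem t_dich2 (hPERPT : S_PERPT.{u}) (hHPC : S_HPC.{u}) (hWIDE : S_WIDE.{u, v})
    (hreg : S_REG.{u, v}) (hrec : S_REC.{u, v}) (hmain : S_MAIN.{u, v})
    (X₁ X₂ : Type u) [MetricSpace X₁] [MetricSpace X₂] (G : Type v) [Group G]
    [MulAction G X₁] [MulAction G X₂] (hG : PGeo X₁ X₂ G)
    (hub₁ : ∀ (x : X₁) (r : ℝ), ∃ y : X₁, r ≤ dist x y)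
    (hub₂ : ∀ (x : X₂) (r : ℝ), ∃ y : X₂, r ≤ dist x y) (hne1 : Nonempty X₁)
    (hne2 : Nonempty X₂) :
    HasZ2 G ∨
      ((∀ g : G, (∃ x : X₁, g • x = x) ∨ ∃ x : X₂, g • x = x) ∧
        (∃ (g : G) (τ : ℝ) (c : ℝ → X₁), 0 < τ ∧ Axis g τ c) ∧
        (∃ (g : G) (τ : ℝ) (c : ℝ → X₂), 0 < τ ∧ Axis g τ c) ∧
        (∀ (g : G) (τ : ℝ) (c : ℝ → X₁), 0 < τ → Axis g τ c → Many c) ∧
        ∀ (g : G) (τ : ℝ) (c : ℝ → X₂), 0 < τ → Axis g τ c → Many c) := by
  rcases t_dich hreg hrec hmain X₁ X₂ G hG hub₁ hub₂ hne1 hne2 with h | ⟨h1, h2, h3, h4, h5⟩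
  · exact Or.inl h
  by_cases hz : HasZ2 G
  · exact Or.inl hz
  refine Or.inr ⟨h1, h2, h3, fun g τ c hτ hc => ?_, fun g τ c hτ hc => ?_⟩
  · exact (many hPERPT hHPC hWIDE hreg hG hne1 hne2 g τ c hτ hc (h4 g τ c hτ hc)).resolve_left hz
  · exact (many hPERPT hHPC hWIDE hreg hG.swap hne2 hne1 g τ c hτ hc
      (h5 g τ c hτ hc)).resolve_left hz

end Pool.Agent.Q216.PD
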