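import Pool.Agent.Q216.PD.Stm
import Pool.Agent.Y219.EL.Axis

/-!
# Project PD: elements with small displacement have bounded order; product actions
-/

set_option autoImplicit false

universe u v

open Metric Set Filter Topology
open Pool.Agent.TH60.FP Pool.Agent.Y34.HB Pool.Agent.Y34.EL

namespace Pool.Agent.Q216.PD

theorem finOrder_of_fix {X : Type u} [MetricSpace X] {G : Type v} [Group G]
    [MulAction G X] [ProperlyDiscontinuousSMul G X] (k : G) (x : X) (h : k • x = x) :
    0 < orderOf k := by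
  rw [orderOf_pos_iff]
  have hfin : {γ : G | γ • x = x}.Finite := by
    refine (ProperlyDiscontinuousSMul.finite_disjoint_inter_image (Γ := G)
      (isCompact_singleton (x := x)) (isCompact_singleton (x := x))).subset ?_
    intro γ hγ
    exact ⟨x, ⟨x, rfl, hγ⟩, rfl⟩
  have hpow : ∀ n : ℕ, k ^ n ∈ {γ : G | γ • x = x} := by
    intro n
    induction n with
    | zero => exact (by rw [pow_zero, one_smul] : k ^ 0 • x = x)
    | succ n ih =>
      have ih' : k ^ n • x = x := ih
      exact (by rw [pow_succ, mul_smul, h, ih'] : k ^ (n + 1) • x = x)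
  have hfin2 : (Set.range fun n : ℕ => k ^ n).Finite := by
    refine hfin.subset ?_
    rintro _ ⟨n, rfl⟩
    exact hpow n
  by_contra hno
  exact Set.infinite_range_of_injective (injective_pow_iff_not_isOfFinOrder.2 hno) hfin2

theorem t_ord : S_ORD.{u, v} := by
  classical
  intro X _ G _ _ hG
  have := hG.proper
  have := hG.isom
  have := hG.disc
  obtain ⟨K, hK, hcov⟩ := hG.cc
  rcases isEmpty_or_nonempty X with hXe | ⟨⟨x0⟩⟩
  · exact ⟨1, 1, one_pos, one_pos, fun g z => (hXe.false z).elim⟩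
  obtain ⟨hx, hxK⟩ := hcov x0
  have hKne : K.Nonempty := ⟨_, hxK⟩
  set S : Set G := {k | ∃ z ∈ K, dist z (k • z) ≤ 1} with hS
  have hfin : S.Finite := by
    have h1 := ProperlyDiscontinuousSMul.finite_disjoint_inter_image (Γ := G) hK
      (hK.cthickening (r := 1))
    refine h1.subset ?_
    rintro k ⟨z, hz, hzk⟩
    refine ⟨k • z, ⟨z, hz, rfl⟩, ?_⟩
    refine mem_cthickening_of_dist_le (k • z) z 1 K hz ?_
    rw [dist_comm]
    exact hzk
  have hmin : ∀ k : G, ∃ z ∈ K, ∀ z' ∈ K, dist z (k • z) ≤ dist z' (k • z') := by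
    intro k
    have hc : Continuous fun z : X => dist z (k • z) :=
      continuous_id.dist (isometry_smul X k).continuous
    obtain ⟨z, hz, hzm⟩ := hK.exists_isMinOn hKne hc.continuousOn
    exact ⟨z, hz, fun z' hz' => hzm hz'⟩
  choose w hwK hw using hmin
  -- the positive minima
  set P : Finset G := hfin.toFinset.filter fun k => 0 < dist (w k) (k • w k) with hP
  obtain ⟨ε₀, hε0, hε1, hε⟩ : ∃ ε₀ : ℝ, 0 < ε₀ ∧ ε₀ ≤ 1 ∧ ∀ k ∈ P, ε₀ ≤ dist (w k) (k • w k) := by
    rcases P.eq_empty_or_nonempty with h | h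
    · exact ⟨1, one_pos, le_rfl, fun k hk => by rw [h] at hk; exact absurd hk (by simp)⟩
    · obtain ⟨k, hk, hkm⟩ := P.exists_min_image (fun k => dist (w k) (k • w k)) h
      refine ⟨min 1 (dist (w k) (k • w k)), lt_min one_pos (Finset.mem_filter.1 hk).2,
        min_le_left _ _, fun k' hk' => (min_le_right _ _).trans (hkm k' hk')⟩
  set Q : Finset G := hfin.toFinset.filter fun k => 0 < orderOf k with hQ
  refine ⟨ε₀, ∏ k ∈ Q, orderOf k, hε0, Finset.prod_pos fun k hk => (Finset.mem_filter.1 hk).2,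
    fun g z hz => ?_⟩
  obtain ⟨h, hh⟩ := hcov z
  set k : G := h * g * h⁻¹ with hk
  have e : dist (h • z) (k • h • z) = dist z (g • z) := by
    rw [hk, mul_smul, mul_smul, inv_smul_smul, dist_smul]
  have hkS : k ∈ S := ⟨h • z, hh, by rw [e]; linarith⟩
  have hk0 : dist (w k) (k • w k) = 0 := by
    by_contra hne
    have hpos : 0 < dist (w k) (k • w k) := lt_of_le_of_ne dist_nonneg (Ne.symm hne)
    have h1 := hε k (Finset.mem_filter.2 ⟨hfin.mem_toFinset.2 hkS, hpos⟩)
    have h2 := hw k (h • z) hh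
    rw [e] at h2
    linarith
  have hord : 0 < orderOf k := finOrder_of_fix k (w k) (dist_eq_zero.1 hk0).symm
  have hkN : k ^ (∏ k ∈ Q, orderOf k) = 1 :=
    orderOf_dvd_iff_pow_eq_one.1 (Finset.dvd_prod_of_mem _
      (Finset.mem_filter.2 ⟨hfin.mem_toFinset.2 hkS, hord⟩))
  have hg : g = h⁻¹ * k * h := by rw [hk]; group
  have hconj : ∀ n : ℕ, (h⁻¹ * k * h) ^ n = h⁻¹ * k ^ n * h := by
    intro n
    have := conj_pow (a := h⁻¹) (b := k) (i := n)
    rw [inv_inv] at this
    exact this
  rw [hg, hconj, hkN]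
  group

end Pool.Agent.Q216.PD
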