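import Pool.Agent.Q216.PD.Ax
import Pool.Agent.Q216.PD.Base
import Pool.Agent.Q216.PD.Ord

/-!
# Project PD: the dichotomy
-/

set_option autoImplicit false

universe u v

open Metric Set Filter Topology
open Pool.Agent.TH60.FP Pool.Agent.Y34.HB Pool.Agent.Y34.EL Pool.Agent.Y155.HB Pool.Agent.Y219.EL

namespace Pool.Agent.Q216.PD

theorem axes_both {X₁ X₂ : Type u} [MetricSpace X₁] [MetricSpace X₂] {G : Type v} [Group G]
    [MulAction G X₁] [MulAction G X₂] (h : S_REG.{u, v}) (hG : PGeo X₁ X₂ G)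
    (h1 : Nonempty X₁) (h2 : Nonempty X₂) (g : G) (hn1 : ∀ x : X₁, g • x ≠ x)
    (hn2 : ∀ x : X₂, g • x ≠ x) : HasZ2 G := by
  have := hG.proper₁
  have := hG.isom₁
  have := hG.proper₂
  have := hG.isom₂
  obtain ⟨m1, m2⟩ := exists_min2 hG.geo h1 h2 g
  obtain ⟨τ₁, c₁, ht₁, hc₁, -⟩ := axis_of_noFix hG.cn₁ g m1 hn1
  obtain ⟨τ₂, c₂, ht₂, hc₂, -⟩ := axis_of_noFix hG.cn₂ g m2 hn2
  exact h X₁ X₂ G hG g τ₁ τ₂ c₁ c₂ ht₁ ht₂ hc₁ hc₂

/-- an element with an axis has no fixed points -/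
theorem noFix_of_axis {X : Type u} [MetricSpace X] {G : Type v} [Group G]
    [MulAction G X] [IsIsometricSMul G X] {g : G} {τ : ℝ} {c : ℝ → X} (hτ : 0 < τ)
    (hc : Axis g τ c) (x : X) : g • x ≠ x := by
  intro hx
  have hp : ∀ n : ℕ, g ^ n • x = x := by
    intro n
    induction n with
    | zero => rw [pow_zero, one_smul]
    | succ n ih => rw [pow_succ, mul_smul, hx, ih]
  have hq : ∀ n : ℕ, g ^ n • c 0 = c (n * τ) := by
    intro n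
    induction n with
    | zero => rw [pow_zero, one_smul]; simp
    | succ n ih =>
      rw [pow_succ', mul_smul, ih, hc.2]
      congr 1
      push_cast
      ring
  obtain ⟨n, hn⟩ := exists_nat_gt (2 * dist (c 0) x / τ)
  have h1 : dist (c 0) (c (n * τ)) = n * τ := by
    rw [hc.1.dist_eq, Real.dist_eq, zero_sub, abs_neg, abs_of_nonneg (by positivity)]
  have h2 : dist (c (n * τ)) x = dist (c 0) x := by
    rw [← hq n]
    conv_lhs => rw [← hp n]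
    rw [dist_smul]
  have h3 := dist_triangle (c 0) x (c (n * τ))
  rw [dist_comm x, h1, h2] at h3
  rw [div_lt_iff₀ hτ] at hn
  linarith

theorem t_main (hreg : S_REG.{u, v}) (hrec : S_REC.{u, v}) (hlim : S_LIM.{u, v})
    (hpow : S_POW.{u, v}) (hrk : S_RK.{u, v}) : S_MAIN.{u, v} := by
  intro X₁ X₂ _ _ G _ _ _ hG hub hne1 hne2 g τ c hτ hc hhp
  have := hG.proper₁
  have := hG.isom₁
  have := hG.proper₂
  have := hG.isom₂
  have hgn1 : ∀ x : X₁, g • x ≠ x := noFix_of_axis hτ hc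
  by_cases hg2 : ∀ x : X₂, g • x ≠ x
  · exact axes_both hreg hG hne1 hne2 g hgn1 hg2
  push Not at hg2
  obtain ⟨p, hp⟩ := hg2
  obtain ⟨B, ε, N, hε, hB⟩ := hrk X₁ G hG.cn₁ g τ c hτ hc hhp
  obtain ⟨h, hh1, hh2⟩ := hrec X₁ X₂ G hG hub hne2 (c 0) B ε hε
  by_cases hn : ∀ x : X₁, h • x ≠ x
  · exact axes_both hreg hG hne1 hne2 h hn hh2
  push Not at hn
  obtain ⟨q, hq⟩ := hn
  obtain ⟨τ₂, c₂, ht₂, hc₂, hmin⟩ := t_min X₁ X₂ G hG hne1 hne2 h hh2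
  obtain ⟨n, hni, hlimn⟩ := hpow X₂ G g p hp
  have hw1 : ∀ i, N ≤ i → ∀ x : X₁, (g ^ n i * h) • x ≠ x := fun i hi =>
    hB h hh1 (n i) (hi.trans (hni i))
  by_cases hall : ∃ i, N ≤ i ∧ ∀ x : X₂, (g ^ n i * h) • x ≠ x
  · obtain ⟨i, hi, hx⟩ := hall
    exact axes_both hreg hG hne1 hne2 _ (hw1 i hi) hx
  push Not at hall
  refine hlim X₁ X₂ G hG h q τ₂ c₂ hq ht₂ hc₂ hmin (fun i => g ^ n (i + N) * h) (fun x => ?_)
    (fun i => hall (i + N) (by omega))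
  have h1 := (hlimn (h • x)).comp (tendsto_add_atTop_nat N)
  simpa [Function.comp_def, mul_smul] using h1

/-- the theorem for product actions -/
theorem t_dich (hreg : S_REG.{u, v}) (hrec : S_REC.{u, v}) (hmain : S_MAIN.{u, v})
    (X₁ X₂ : Type u) [MetricSpace X₁] [MetricSpace X₂] (G : Type v) [Group G]
    [MulAction G X₁] [MulAction G X₂] (hG : PGeo X₁ X₂ G)
    (hub₁ : ∀ (x : X₁) (r : ℝ), ∃ y : X₁, r ≤ dist x y)
    (hub₂ : ∀ (x : X₂) (r : ℝ), ∃ y : X₂, r ≤ dist x y) (hne1 : Nonempty X₁)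
    (hne2 : Nonempty X₂) :
    HasZ2 G ∨
      ((∀ g : G, (∃ x : X₁, g • x = x) ∨ ∃ x : X₂, g • x = x) ∧
        (∃ (g : G) (τ : ℝ) (c : ℝ → X₁), 0 < τ ∧ Axis g τ c) ∧
        (∃ (g : G) (τ : ℝ) (c : ℝ → X₂), 0 < τ ∧ Axis g τ c) ∧
        (∀ (g : G) (τ : ℝ) (c : ℝ → X₁), 0 < τ → Axis g τ c → (HP c).Nonempty) ∧
        ∀ (g : G) (τ : ℝ) (c : ℝ → X₂), 0 < τ → Axis g τ c → (HP c).Nonempty) := by
  by_cases hz : HasZ2 G
  · exact Or.inl hz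
  refine Or.inr ⟨fun g => ?_, ?_, ?_, fun g τ c hτ hc => ?_, fun g τ c hτ hc => ?_⟩
  · by_contra hcon
    push Not at hcon
    exact hz (axes_both hreg hG hne1 hne2 g hcon.1 hcon.2)
  · obtain ⟨x⟩ := hne2
    obtain ⟨h, -, hh⟩ := hrec X₂ X₁ G hG.swap hub₁ hne1 x 1 1 one_pos
    obtain ⟨τ, c, ht, hc, -⟩ := t_min X₂ X₁ G hG.swap ⟨x⟩ hne1 h hh
    exact ⟨h, τ, c, ht, hc⟩
  · obtain ⟨x⟩ := hne1
    obtain ⟨h, -, hh⟩ := hrec X₁ X₂ G hG hub₂ hne2 x 1 1 one_pos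
    obtain ⟨τ, c, ht, hc, -⟩ := t_min X₁ X₂ G hG ⟨x⟩ hne2 h hh
    exact ⟨h, τ, c, ht, hc⟩
  · by_contra hcon
    rw [Set.not_nonempty_iff_eq_empty] at hcon
    exact hz (hmain X₁ X₂ G hG hub₂ hne1 hne2 g τ c hτ hc hcon)
  · by_contra hcon
    rw [Set.not_nonempty_iff_eq_empty] at hcon
    exact hz (hmain X₂ X₁ G hG.swap hub₁ hne2 hne1 g τ c hτ hc hcon)

end Pool.Agent.Q216.PD
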