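import Pool.Agent.Y34.EL.Stm

/-!
# Project PD (owner helper216): the product of two metric spaces with the `ℓ²` metric
-/

set_option autoImplicit false

universe u v

open Metric Set Filter Topology
open Pool.Agent.TH60.FP Pool.Agent.Y34.HB Pool.Agent.Y34.EL

namespace Pool.Agent.Q216.PD

/-- the product of two metric spaces (with the `ℓ²` metric, see below) -/
@[ext]
structure Pr (X₁ X₂ : Type u) : Type u where
  /-- first component -/
  fst : X₁
  /-- second component -/
  snd : X₂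

lemma mink {a b c d : ℝ} (_ha : 0 ≤ a) (_hb : 0 ≤ b) (_hc : 0 ≤ c) (_hd : 0 ≤ d) :
    √((a + b) ^ 2 + (c + d) ^ 2) ≤ √(a ^ 2 + c ^ 2) + √(b ^ 2 + d ^ 2) := by
  have hu : 0 ≤ √(a ^ 2 + c ^ 2) := Real.sqrt_nonneg _
  have hv : 0 ≤ √(b ^ 2 + d ^ 2) := Real.sqrt_nonneg _
  have hu2 : √(a ^ 2 + c ^ 2) ^ 2 = a ^ 2 + c ^ 2 := Real.sq_sqrt (by positivity)
  have hv2 : √(b ^ 2 + d ^ 2) ^ 2 = b ^ 2 + d ^ 2 := Real.sq_sqrt (by positivity)
  have h1 : a * b + c * d ≤ √(a ^ 2 + c ^ 2) * √(b ^ 2 + d ^ 2) := by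
    refine abs_le_of_sq_le_sq' ?_ (by positivity) |>.2
    rw [mul_pow, hu2, hv2]
    nlinarith [sq_nonneg (a * d - b * c)]
  refine Real.sqrt_le_iff.2 ⟨by positivity, ?_⟩
  nlinarith

section
variable {X₁ X₂ : Type u} [MetricSpace X₁] [MetricSpace X₂]

noncomputable instance : MetricSpace (Pr X₁ X₂) where
  dist p q := √(dist p.fst q.fst ^ 2 + dist p.snd q.snd ^ 2)
  dist_self p := by simp
  dist_comm p q := by simp only [dist_comm]
  dist_triangle p q r := by
    refine le_trans (Real.sqrt_le_sqrt ?_) (mink (a := dist p.fst q.fst) (b := dist q.fst r.fst)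
      (c := dist p.snd q.snd) (d := dist q.snd r.snd) dist_nonneg dist_nonneg dist_nonneg
      dist_nonneg)
    have h1 := dist_triangle p.fst q.fst r.fst
    have h2 := dist_triangle p.snd q.snd r.snd
    exact add_le_add (pow_le_pow_left₀ dist_nonneg h1 2) (pow_le_pow_left₀ dist_nonneg h2 2)
  eq_of_dist_eq_zero {p q} h := by
    have h1 : dist p.fst q.fst ^ 2 + dist p.snd q.snd ^ 2 = 0 := by
      have h2 : 0 ≤ dist p.fst q.fst ^ 2 + dist p.snd q.snd ^ 2 := by positivity
      exact (Real.sqrt_eq_zero h2).1 h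
    have h3 : dist p.fst q.fst = 0 := by
      have := sq_nonneg (dist p.snd q.snd)
      have := sq_nonneg (dist p.fst q.fst)
      exact pow_eq_zero_iff two_ne_zero |>.1 (by linarith)
    have h4 : dist p.snd q.snd = 0 := by
      have := sq_nonneg (dist p.snd q.snd)
      have := sq_nonneg (dist p.fst q.fst)
      exact pow_eq_zero_iff two_ne_zero |>.1 (by linarith)
    exact Pr.ext (dist_eq_zero.1 h3) (dist_eq_zero.1 h4)

lemma dist_def (p q : Pr X₁ X₂) :
    dist p q = √(dist p.fst q.fst ^ 2 + dist p.snd q.snd ^ 2) := rfl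

lemma dist_sq (p q : Pr X₁ X₂) :
    dist p q ^ 2 = dist p.fst q.fst ^ 2 + dist p.snd q.snd ^ 2 := by
  rw [dist_def, Real.sq_sqrt (by positivity)]

lemma fst_le (p q : Pr X₁ X₂) : dist p.fst q.fst ≤ dist p q := by
  rw [dist_def]
  exact Real.le_sqrt_of_sq_le (by have := sq_nonneg (dist p.snd q.snd); linarith)

lemma snd_le (p q : Pr X₁ X₂) : dist p.snd q.snd ≤ dist p q := by
  rw [dist_def]
  exact Real.le_sqrt_of_sq_le (by have := sq_nonneg (dist p.fst q.fst); linarith)

lemma le_add (p q : Pr X₁ X₂) : dist p q ≤ dist p.fst q.fst + dist p.snd q.snd := by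
  rw [dist_def]
  have h1 : (0 : ℝ) ≤ dist p.fst q.fst := dist_nonneg
  have h2 : (0 : ℝ) ≤ dist p.snd q.snd := dist_nonneg
  exact Real.sqrt_le_iff.2 ⟨by positivity, by nlinarith⟩

variable {G : Type v} [Group G] [MulAction G X₁] [MulAction G X₂]

instance : MulAction G (Pr X₁ X₂) where
  smul g p := ⟨g • p.fst, g • p.snd⟩
  one_smul p := Pr.ext (one_smul G p.fst) (one_smul G p.snd)
  mul_smul g h p := Pr.ext (mul_smul g h p.fst) (mul_smul g h p.snd)

omit [MetricSpace X₁] [MetricSpace X₂] in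
@[simp] lemma smul_fst (g : G) (p : Pr X₁ X₂) : (g • p).fst = g • p.fst := rfl
omit [MetricSpace X₁] [MetricSpace X₂] in
@[simp] lemma smul_snd (g : G) (p : Pr X₁ X₂) : (g • p).snd = g • p.snd := rfl

end

end Pool.Agent.Q216.PD
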