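import Pool.Agent.Q216.PD.Pr

/-!
# Project PD (owner helper216): groups acting geometrically on products of CAT(0) spaces

`G` acts by isometries on the proper CAT(0) spaces `X₁`, `X₂` and geometrically on the product.
Every `def S_... : Prop` is the statement of one part.
-/

set_option autoImplicit false

universe u v

open Metric Set Filter Topology
open Pool.Agent.TH60.FP Pool.Agent.Y34.HB Pool.Agent.Y34.EL

namespace Pool.Agent.Q216.PD

/-- a product action: isometric on both factors, geometric on the product -/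
structure PGeo (X₁ X₂ : Type u) [MetricSpace X₁] [MetricSpace X₂] (G : Type v) [Group G]
    [MulAction G X₁] [MulAction G X₂] : Prop where
  proper₁ : ProperSpace X₁
  proper₂ : ProperSpace X₂
  isom₁ : IsIsometricSMul G X₁
  isom₂ : IsIsometricSMul G X₂
  cn₁ : CN X₁
  cn₂ : CN X₂
  geo : Geo (Pr X₁ X₂) G

/-- MIN: elements without fixed points in the second factor have an axis in it -/
def S_MIN : Prop := ∀ (X₁ X₂ : Type u) [MetricSpace X₁] [MetricSpace X₂] (G : Type v) [Group G]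
  [MulAction G X₁] [MulAction G X₂], PGeo X₁ X₂ G → Nonempty X₁ → Nonempty X₂ → ∀ g : G,
  (∀ x : X₂, g • x ≠ x) →
  ∃ (τ : ℝ) (c : ℝ → X₂), 0 < τ ∧ Axis g τ c ∧ ∀ z : X₂, τ ≤ dist z (g • z)

/-- ORD: elements with small displacement have uniformly bounded order -/
def S_ORD : Prop := ∀ (X : Type u) [MetricSpace X] (G : Type v) [Group G] [MulAction G X],
  Geo X G → ∃ (ε₀ : ℝ) (N : ℕ), 0 < ε₀ ∧ 0 < N ∧
    ∀ (g : G) (z : X), dist z (g • z) < ε₀ → g ^ N = 1

/-- REG: an element with axes in both factors gives `ℤ²` -/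
def S_REG : Prop := ∀ (X₁ X₂ : Type u) [MetricSpace X₁] [MetricSpace X₂] (G : Type v) [Group G]
  [MulAction G X₁] [MulAction G X₂], PGeo X₁ X₂ G → ∀ (g : G) (τ₁ τ₂ : ℝ) (c₁ : ℝ → X₁)
  (c₂ : ℝ → X₂), 0 < τ₁ → 0 < τ₂ → Axis g τ₁ c₁ → Axis g τ₂ c₂ → HasZ2 G

/-- TOR: an isometry of finite order does not move a ray far along itself -/
def S_TOR : Prop := ∀ (X : Type u) [MetricSpace X] [ProperSpace X] (G : Type v) [Group G]
  [MulAction G X] [IsIsometricSMul G X], CN X → ∀ (o : X) (ρ : ℝ → X), Ray o ρ →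
  ∀ (g : G) (N : ℕ), 0 < N → (∀ x : X, g ^ N • x = x) →
  ∀ n m : ℝ, 0 ≤ n → n + (4 * N + 5) ≤ m → dist (g • ρ m) (ρ n) ≤ 1 / 2 →
    dist (g • ρ (m + (4 * N + 5))) (ρ (n + (4 * N + 5))) ≤ 1 / 2 → False

/-- REC: if the second factor is unbounded there are elements without fixed points in it which are
close to the identity on a ball of the first factor -/
def S_REC : Prop := ∀ (X₁ X₂ : Type u) [MetricSpace X₁] [MetricSpace X₂] (G : Type v) [Group G]
  [MulAction G X₁] [MulAction G X₂], PGeo X₁ X₂ G →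
  (∀ (x : X₂) (r : ℝ), ∃ y : X₂, r ≤ dist x y) → Nonempty X₂ →
  ∀ (x₁ : X₁) (B ε : ℝ), 0 < ε →
  ∃ h : G, (∀ x ∈ closedBall x₁ B, dist x (h • x) ≤ ε) ∧ ∀ x : X₂, h • x ≠ x

/-- LIM: if `h` has an axis in the second factor and a fixed point in the first factor and is there
(in the second factor) a limit of elements with fixed points then `G` contains `ℤ²` -/
def S_LIM : Prop := ∀ (X₁ X₂ : Type u) [MetricSpace X₁] [MetricSpace X₂] (G : Type v) [Group G]
  [MulAction G X₁] [MulAction G X₂], PGeo X₁ X₂ G → ∀ (h : G) (q : X₁) (τ : ℝ) (c : ℝ → X₂),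
  h • q = q → 0 < τ → Axis h τ c → (∀ z : X₂, τ ≤ dist z (h • z)) →
  ∀ w : ℕ → G, (∀ x : X₂, Tendsto (fun i => w i • x) atTop (𝓝 (h • x))) →
  (∀ i, ∃ x : X₂, w i • x = x) → HasZ2 G

/-- POW: powers of an isometry with a fixed point come back to the identity -/
def S_POW : Prop := ∀ (X : Type u) [MetricSpace X] [ProperSpace X] (G : Type v) [Group G]
  [MulAction G X] [IsIsometricSMul G X] (g : G) (p : X), g • p = p →
  ∃ n : ℕ → ℕ, (∀ i, i ≤ n i) ∧ ∀ x : X, Tendsto (fun i => g ^ n i • x) atTop (𝓝 x)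

/-- RK: high powers of `g`, multiplied by elements close to the identity, have no fixed points if
`g` has an axis which does not bound a flat half-plane -/
def S_RK : Prop := ∀ (X : Type u) [MetricSpace X] [ProperSpace X] (G : Type v) [Group G]
  [MulAction G X] [IsIsometricSMul G X], CN X → ∀ (g : G) (τ : ℝ) (c : ℝ → X), 0 < τ →
  Axis g τ c → HP c = ∅ → ∃ (B ε : ℝ) (N : ℕ), 0 < ε ∧ ∀ h : G,
    (∀ x ∈ closedBall (c 0) B, dist x (h • x) ≤ ε) → ∀ n : ℕ, N ≤ n → ∀ x : X,
      (g ^ n * h) • x ≠ x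

/-- MAIN: the dichotomy for the first factor -/
def S_MAIN : Prop := ∀ (X₁ X₂ : Type u) [MetricSpace X₁] [MetricSpace X₂] (G : Type v) [Group G]
  [MulAction G X₁] [MulAction G X₂], PGeo X₁ X₂ G →
  (∀ (x : X₂) (r : ℝ), ∃ y : X₂, r ≤ dist x y) → Nonempty X₁ → Nonempty X₂ →
  ∀ (g : G) (τ : ℝ) (c : ℝ → X₁), 0 < τ → Axis g τ c → HP c = ∅ → HasZ2 G

end Pool.Agent.Q216.PD
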