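import Pool.Agent.Q216.PD.Base

/-!
# Project PD (owner helper216), second part: elements with an axis in one factor act on the other
factor as rotations
-/

set_option autoImplicit false

universe u v

open Metric Set Filter Topology
open Pool.Agent.TH60.FP Pool.Agent.Y34.HB Pool.Agent.Y34.EL

namespace Pool.Agent.Q216.PD

/-- UNI: if all elements without fixed points in the second factor have a nonempty bounded set of
fixed points in the first factor, then their displacement in the first factor grows linearly,
uniformly for all elements with bounded displacement at some point of the second factor.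

Proof.  Let `K` be compact in `Pr X₁ X₂` with `G K = Pr X₁ X₂`, put `M = max L 0`.  The set `V` of
all `v : G` with `dist p (v • p) ≤ M` for some `p ∈ K` is finite (proper discontinuity for the
compact sets `K` and `cthickening M K`, see the proof of `t_ord` in `Q216/PD/Ord.lean`).  For each
`v : G` without fixed points in `X₂` choose a fixed point `z` in `X₁` and `R ≥ 1` such that all
fixed points in `X₁` have distance at most `R - 1` from `z`.  If the sphere of radius `R` around `z`
is empty then `X₁` is contained in the closed ball of radius `R` around `z` (segments, `t_stew`), and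
`l = 1`, `C = R` will do.  Otherwise the continuous function `y ↦ dist y (v • y)` has a positive
minimum `m` on the sphere (compact, no fixed points there).  For `y` with `R ≤ dist z y` let `y'` be
the point at distance `R` from `z` on the segment from `z` to `y` (`On z y R y'`); `v • y'` is the
point at distance `R` on the segment from `z = v • z` to `v • y`; by `S_CMP` (first part with
`dist z y = dist z (v • y)`, or second part with `l = R / dist z y`)
`dist y' (v • y') ≤ (R / dist z y) * dist y (v • y)`, so `(m / R) * dist y z ≤ dist y (v • y)`.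
So with `l = m / R`, `C = m` we have `l * dist y z ≤ dist y (v • y) + C` for all `y`.
Take the minimum of the `l` and the maximum of the `C` over the finite set of the `v ∈ V` without
fixed points in `X₂` (with 1 and 0 added).  Let `w` be as in the statement,
`y : X₂` with `dist y (w • y) ≤ L`, `x : X₁` a fixed point of `w`.  There is `g : G` with
`g • (x, y) ∈ K`, and `v = g * w * g⁻¹` moves this point by `dist y (w • y) ≤ L` (`dist_sq`), so
`v ∈ V`, it has no fixed points in `X₂`, and the statement for `v` gives the statement for `w` with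
the fixed point `g⁻¹ • z`. -/
def S_UNI : Prop := ∀ (X₁ X₂ : Type u) [MetricSpace X₁] [MetricSpace X₂] (G : Type v) [Group G]
  [MulAction G X₁] [MulAction G X₂], PGeo X₁ X₂ G →
  (∀ g : G, (∀ x : X₂, g • x ≠ x) → (∃ x : X₁, g • x = x) ∧
    ∃ R : ℝ, ∀ x y : X₁, g • x = x → g • y = y → dist x y ≤ R) →
  ∀ L : ℝ, ∃ l C : ℝ, 0 < l ∧ ∀ w : G, (∀ x : X₂, w • x ≠ x) →
    (∃ y : X₂, dist y (w • y) ≤ L) →
    ∃ x : X₁, w • x = x ∧ ∀ y : X₁, l * dist y x ≤ dist y (w • y) + C

/-- ROT: an isometry `w` with the fixed point `x`, a point `o` with `4 A ^ 2 - D ^ 2 < 4 r ^ 2`,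
`A = dist o (w • o)`, `D = dist o (w • w • o)`, `r = dist o x`: then
`A ^ 4 ≤ r ^ 2 * (4 A ^ 2 - D ^ 2)`.

Proof.  Let `m` be the midpoint of `o` and `w • w • o` (from `CN`).  `dist x m ^ 2 ≤ r ^ 2 - D ^ 2 / 4`,
`dist (w • o) m ^ 2 ≤ A ^ 2 - D ^ 2 / 4`, put `B = √(A ^ 2 - D ^ 2 / 4) < r`.
`r = dist (w • o) x ≤ B + √(r ^ 2 - D ^ 2 / 4)`, so `(r - B) ^ 2 ≤ r ^ 2 - D ^ 2 / 4`, i.e.
`A ^ 2 = B ^ 2 + D ^ 2 / 4 ≤ 2 r B`; squares. -/
def S_ROT : Prop := ∀ (X : Type u) [MetricSpace X] (G : Type v) [Group G] [MulAction G X]
  [IsIsometricSMul G X], CN X → ∀ (w : G) (x o : X), w • x = x →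
  4 * dist o (w • o) ^ 2 - dist o (w • w • o) ^ 2 < 4 * dist o x ^ 2 →
  dist o (w • o) ^ 4 ≤ dist o x ^ 2 * (4 * dist o (w • o) ^ 2 - dist o (w • w • o) ^ 2)

end Pool.Agent.Q216.PD
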